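import Pool.Agent.W998.KG.Stm

/-!
# Double counting of the inner incidences
-/

set_option autoImplicit false

namespace Pool.Agent.W7.KG

open Pool.Agent.W998.KG
open Pool.Agent.Results.MP_633d19_co.SmallDegree
open Pool.Agent.Results.MP_633d19_co.SmallDegree.MGraph

theorem main : PartSUM := by
  intro V E _ _ G k l μ y f α β c hl hst hmu hch hA
  classical
  have : Fintype E := Fintype.ofFinite E
  have hpv : ∀ i, i < l → ∃ p, p < l ∧ nx l p = i := by
    intro i hi
    by_cases h0 : i = 0
    · exact ⟨l - 1, by omega, by unfold nx; rw [if_pos (by omega)]; omega⟩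
    · exact ⟨i - 1, by omega, by unfold nx; rw [if_neg (by omega)]; omega⟩
  choose! pv hpv1 hpv2 using hpv
  have hnx : ∀ i, i < l → nx l i ≠ i := by
    intro i hi h
    unfold nx at h
    split_ifs at h <;> omega
  have hpvne : ∀ i, i < l → pv i ≠ i := by
    intro i hi h
    have h1 := hpv2 i hi
    rw [h] at h1
    exact hnx i hi h1
  let S : ℕ → Finset E := fun i => Finset.univ.filter fun e =>
    G.ends e = s(y i, y (nx l i)) ∨ G.ends e = s(y i, y (pv i))
  let C : ℕ → Finset (Fin k) := fun i =>
    ((Finset.univ.erase α).erase β).filter fun a => In G l y c a i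
  have hmult : ∀ u w, u ≠ w →
      (Finset.univ.filter fun e : E => G.ends e = s(u, w)).card ≤ μ := by
    intro u w h
    have h1 := hmu u w h
    unfold MGraph.mult at h1
    rwa [Nat.card_eq_fintype_card, Fintype.card_subtype] at h1
  have hS : ∀ i, i < l → (S i).card ≤ 2 * μ := by
    intro i hi
    have h1 : S i = (Finset.univ.filter fun e : E => G.ends e = s(y i, y (nx l i))) ∪
        (Finset.univ.filter fun e : E => G.ends e = s(y i, y (pv i))) := by
      ext e
      simp [S]
    rw [h1]
    have h2 := hmult (y i) (y (nx l i)) (fun h => hnx i hi (hst.inj _ (nx_lt hi) _ hi h.symm))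
    have h3 := hmult (y i) (y (pv i)) (fun h => hpvne i hi (hst.inj _ (hpv1 i hi) _ hi h.symm))
    have h4 := Finset.card_union_le
      (Finset.univ.filter fun e : E => G.ends e = s(y i, y (nx l i)))
      (Finset.univ.filter fun e : E => G.ends e = s(y i, y (pv i)))
    omega
  have finj := G.edge_inj hl hst.inj hst.ed
  have hC : ∀ i, i < l → (C i).card + 2 ≤ (S i).card := by
    intro i hi
    have h1 : (C i).card ≤ ((S i).filter fun e => c e ≠ none).card := by
      have h2 : (C i).image some ⊆ ((S i).filter fun e => c e ≠ none).image c := by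
        intro o ho
        rw [Finset.mem_image] at ho
        obtain ⟨a, ha, rfl⟩ := ho
        obtain ⟨e, he, j, hj, hji, hends⟩ := (Finset.mem_filter.1 ha).2
        rw [Finset.mem_image]
        refine ⟨e, Finset.mem_filter.2 ⟨Finset.mem_filter.2 ⟨Finset.mem_univ _, ?_⟩, ?_⟩, he⟩
        · rcases hch i hi j hj ⟨e, hends⟩ with h | h
          · left
            rw [hends, h]
          · right
            have h5 : pv i = j := by
              apply nx_inj (l := l)
              rw [hpv2 i hi, h]
            rw [hends, h5]
        · rw [he]; simp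
      calc (C i).card = ((C i).image some).card :=
            (Finset.card_image_of_injective _ (Option.some_injective _)).symm
        _ ≤ _ := Finset.card_le_card h2
        _ ≤ _ := Finset.card_image_le
    have h6 : 2 ≤ ((S i).filter fun e => ¬ (c e ≠ none)).card := by
      have h7 : ({f i, f (pv i)} : Finset E) ⊆ (S i).filter fun e => ¬ (c e ≠ none) := by
        intro e he
        rw [Finset.mem_insert, Finset.mem_singleton] at he
        rcases he with rfl | rfl
        · refine Finset.mem_filter.2 ⟨Finset.mem_filter.2 ⟨Finset.mem_univ _, Or.inl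
            (hst.ed i hi)⟩, ?_⟩
          rw [not_not]
          exact (hst.none_iff _).2 ⟨i, hi, rfl⟩
        · refine Finset.mem_filter.2 ⟨Finset.mem_filter.2 ⟨Finset.mem_univ _, Or.inr ?_⟩, ?_⟩
          · rw [hst.ed _ (hpv1 i hi), hpv2 i hi, Sym2.eq_swap]
          · rw [not_not]
            exact (hst.none_iff _).2 ⟨pv i, hpv1 i hi, rfl⟩
      have h8 : f i ≠ f (pv i) := fun h => hpvne i hi (finj _ hi _ (hpv1 i hi) h).symm
      calc 2 = ({f i, f (pv i)} : Finset E).card := (Finset.card_pair h8).symm
        _ ≤ _ := Finset.card_le_card h7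
    have h9 := Finset.card_filter_add_card_filter_not (s := S i) (fun e => c e ≠ none)
    omega
  have hcol : ∀ a ∈ (Finset.univ.erase α).erase β,
      l - 1 ≤ ((Finset.range l).filter fun i => In G l y c a i).card := by
    intro a ha
    obtain ⟨A, hA1, hA2⟩ := hA a (Finset.ne_of_mem_erase (Finset.mem_of_mem_erase ha))
      (Finset.ne_of_mem_erase ha)
    have h1 : A ⊆ (Finset.range l).filter fun i => In G l y c a i := by
      intro i hi
      exact Finset.mem_filter.2 ⟨Finset.mem_range.2 (hA1 i hi).1, (hA1 i hi).2⟩
    have h2 := Finset.card_le_card h1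
    omega
  have hcard : ((Finset.univ.erase α).erase β : Finset (Fin k)).card = k - 2 := by
    rw [Finset.card_erase_of_mem (Finset.mem_erase.2 ⟨hst.ne.symm, Finset.mem_univ _⟩),
      Finset.card_erase_of_mem (Finset.mem_univ _), Finset.card_univ, Fintype.card_fin]
    omega
  have hsum1 : (k - 2) * (l - 1) ≤
      ∑ a ∈ (Finset.univ.erase α).erase β, ((Finset.range l).filter fun i =>
        In G l y c a i).card := by
    have h1 := Finset.sum_le_sum hcol
    rwa [Finset.sum_const, hcard, smul_eq_mul] at h1
  have hsum2 : ∑ a ∈ (Finset.univ.erase α).erase β, ((Finset.range l).filter fun i =>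
      In G l y c a i).card = ∑ i ∈ Finset.range l, (C i).card := by
    simp only [C, Finset.card_filter]
    exact Finset.sum_comm
  have hsum3 : ∑ i ∈ Finset.range l, ((C i).card + 2) ≤ ∑ i ∈ Finset.range l, 2 * μ :=
    Finset.sum_le_sum fun i hi =>
      (hC i (Finset.mem_range.1 hi)).trans (hS i (Finset.mem_range.1 hi))
  rw [Finset.sum_add_distrib, Finset.sum_const, Finset.sum_const, Finset.card_range,
    smul_eq_mul, smul_eq_mul, ← hsum2] at hsum3
  calc (k - 2) * (l - 1) + 2 * l ≤ _ := Nat.add_le_add_right hsum1 _
    _ = _ := by rw [Nat.mul_comm 2 l]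
    _ ≤ l * (2 * μ) := hsum3
    _ = 2 * μ * l := Nat.mul_comm _ _

end Pool.Agent.W7.KG
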